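import Pool.Agent.X314.Height5

/-!
# MP_693840_co: deleting an element and average heights in a poset

The inequality `∑_{y ≠ x} max (h_P(y) - h_{P-x}(y), 0) ≤ n - 1` is false.

The counterexample has `140` elements: two chains `c_0 < ⋯ < c_40` and `d_0 < ⋯ < d_97` and one
more element `x`, with `c_10 < x < d_31` (and the relations that follow by transitivity).
Deleting `x` keeps the relation `c_10 < d_31`.  Inserting `x` multiplies the weight of a linear
extension by the length of the gap between `c_10` and `d_31`, and this moves the whole chain `d`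
up.

`X314.Height.IsLinExt f` says that the bijection `f : P ≃ Fin n` is increasing,
`X314.Height.linExts P n` is the finite set of these bijections and
`X314.Height.avgHeight P y` is the mean of `f y + 1` over the linear extensions of `P`.
-/

namespace Pool.Agent.Results.MP_693840_co.DeletionHeights

open X314.Height

open Classical in
/-- The answer to Q1 is no. -/
theorem result : ¬ ∀ (P : Type) [Fintype P] [PartialOrder P] (x : P),
    ∑ y : {y : P // y ≠ x}, max (avgHeight P y.1 - avgHeight {y : P // y ≠ x} y) 0 ≤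
      (Fintype.card P : ℝ) - 1 := by
  intro h
  have h1 := h (PP 41 98 11 31) xx
  have hP : 0 < NP 41 98 11 31 := by
    rw [← NPN_eq]; exact_mod_cast numeric.1
  have hQ : 0 < NQ 41 98 11 31 := by
    rw [← NQN_eq]; exact_mod_cast numeric.2.1
  have hnum : SP 41 98 11 31 * NQ 41 98 11 31 + 2 * 41 * (NP 41 98 11 31 * NQ 41 98 11 31)
      < SQ 41 98 11 31 * NP 41 98 11 31 := by
    rw [← NPN_eq, ← NQN_eq, ← SPN_eq, ← SQN_eq]
    exact_mod_cast numeric.2.2
  have h2 := lower_bound (a := 41) (b := 98) (i := 11) (j := 31) (by norm_num) (by norm_num)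
    (by norm_num) hP hQ
  have h3 : ∑ y : {y : PP 41 98 11 31 // y ≠ xx},
      max (avgHeight (PP 41 98 11 31) y.1 - avgHeight {y : PP 41 98 11 31 // y ≠ xx} y) 0
      = ∑ y : QQ 41 98 11 31, max (avgHeight (PP 41 98 11 31) y.1 - avgHeight (QQ 41 98 11 31) y) 0 := by
    congr!
  rw [h3, card_PP] at h1
  have h4 := h2.trans h1
  have hP' : (0 : ℝ) < (NP 41 98 11 31 : ℝ) := by exact_mod_cast hP
  have hQ' : (0 : ℝ) < (NQ 41 98 11 31 : ℝ) := by exact_mod_cast hQ
  have h5 : (SP 41 98 11 31 : ℝ) * NQ 41 98 11 31 + 2 * 41 * (NP 41 98 11 31 * NQ 41 98 11 31)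
      < SQ 41 98 11 31 * NP 41 98 11 31 := by exact_mod_cast hnum
  have h6 : (82 : ℝ) < (SQ 41 98 11 31 : ℝ) / NQ 41 98 11 31 - (SP 41 98 11 31 : ℝ) / NP 41 98 11 31 := by
    rw [div_sub_div _ _ hQ'.ne' hP'.ne', lt_div_iff₀ (mul_pos hQ' hP')]
    linarith
  push_cast at h4
  linarith

end Pool.Agent.Results.MP_693840_co.DeletionHeights
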